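import Mathlib
import Pool.Agent.Helper131.FreeDef
import Pool.Agent.Helper131.Comp
import Pool.Agent.H42.PG.Bridge2

set_option autoImplicit false

namespace Pool.Agent.Results.MP_8b7919_co.LargeAlphabetsBelowTwo

open Pool.Agent.Helper131 (Free)

/-- Let `α` be rational with `1 < α < 2` and let the alphabet have more than
`2 / (α - 1) + 26 / √(α - 1) + 63` letters. Then every right extendable word and every left
extendable word are joined by a transition, and the transition problem is decidable. -/
theorem result (k : ℕ) (α : ℚ) (h1 : 1 < α) (h2 : α < 2)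
    (hk : 2 / ((α : ℝ) - 1) + 26 * Real.sqrt (1 / ((α : ℝ) - 1)) + 63 < k) :
    (∀ u v : List (Fin k), {x : List (Fin k) | Free α (u ++ x)}.Infinite →
      {x : List (Fin k) | Free α (x ++ v)}.Infinite → ∃ w : List (Fin k), Free α (u ++ w ++ v)) ∧
    ComputablePred (fun q : List (Fin k) × List (Fin k) =>
      ∃ w : List (Fin k), Free α (q.1 ++ w ++ q.2)) := by
  have key : Pool.Agent.Helper131.Trans.TP k α := H42PG.TP_large2 h1 h2.le hk
  exact ⟨key, Pool.Agent.Helper131.Comp.decidable_of_TP (by linarith) key⟩

end Pool.Agent.Results.MP_8b7919_co.LargeAlphabetsBelowTwo
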